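import Pool.Agent.N669.CQ.Stm

/-!
# Project CQ (helper669), part NRM (helper655): the maximal inscribed triangle
-/

set_option autoImplicit false

namespace Pool.Agent.N655.CQ

open Pool.Agent.N669.CQ Set

/-- the double area of a triangle -/
def tr (p : P × P × P) : ℝ := cr (p.2.1 - p.1) (p.2.2 - p.1)

theorem continuous_tr : Continuous tr := by
  unfold tr cr
  fun_prop

theorem convex_preimage {K : Set P} (hK : Convex ℝ K) (o u v : P) :
    Convex ℝ (af o u v ⁻¹' K) := by
  intro x hx y hy s t hs ht hst
  have h := hK hx hy hs ht hst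
  have e : af o u v (s • x + t • y) = s • af o u v x + t • af o u v y := by
    unfold af
    have h1 : o = s • o + t • o := by rw [← add_smul, hst, one_smul]
    have e1 : (s • x + t • y).1 = s * x.1 + t * y.1 := by simp
    have e2 : (s • x + t • y).2 = s * x.2 + t * y.2 := by simp
    rw [e1, e2]
    conv_lhs => rw [h1]
    module
  show af o u v (s • x + t • y) ∈ K
  rw [e]
  exact h

theorem t_NRM : S_NRM := by
  intro K hK
  obtain ⟨o, ho⟩ := hK.int
  obtain ⟨ε, hε, hball⟩ := Metric.isOpen_iff.1 isOpen_interior o ho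
  have hmem : ∀ w : P, dist w o < ε → w ∈ K := fun w hw => interior_subset (hball hw)
  have hne : (K ×ˢ K ×ˢ K).Nonempty :=
    ⟨(o, o, o), interior_subset ho, interior_subset ho, interior_subset ho⟩
  obtain ⟨⟨a, b, c⟩, ⟨ha, hb, hc⟩, hmax⟩ :=
    (hK.comp.prod (hK.comp.prod hK.comp)).exists_isMaxOn hne continuous_tr.continuousOn
  have hle : ∀ x ∈ K, ∀ y ∈ K, ∀ z ∈ K, cr (y - x) (z - x) ≤ cr (b - a) (c - a) :=
    fun x hx y hy z hz => hmax (show (x, y, z) ∈ K ×ˢ K ×ˢ K from ⟨hx, hy, hz⟩)
  simp only at ha hb hc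
  have hD : 0 < cr (b - a) (c - a) := by
    have h1 : o + (ε / 2, (0 : ℝ)) ∈ K := hmem _ (by
      rw [dist_eq_norm, add_sub_cancel_left, Prod.norm_def]
      simp only [Real.norm_eq_abs, abs_zero]
      rw [abs_of_pos (by positivity), max_lt_iff]
      constructor <;> linarith)
    have h2 : o + ((0 : ℝ), ε / 2) ∈ K := hmem _ (by
      rw [dist_eq_norm, add_sub_cancel_left, Prod.norm_def]
      simp only [Real.norm_eq_abs, abs_zero]
      rw [abs_of_pos (by positivity), max_lt_iff]
      constructor <;> linarith)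
    have h3 := hle o (interior_subset ho) _ h1 _ h2
    rw [add_sub_cancel_left, add_sub_cancel_left] at h3
    unfold cr at h3 ⊢
    simp only at h3
    have : 0 < ε / 2 * (ε / 2) := by positivity
    linarith
  refine ⟨a, b - a, c - a, hD, ?_, ?_⟩
  · unfold T0
    refine convexHull_min ?_ (convex_preimage hK.conv _ _ _)
    intro z hz
    simp only [mem_insert_iff, mem_singleton_iff] at hz
    rcases hz with rfl | rfl | rfl
    · show af a (b - a) (c - a) (0, 0) ∈ K
      have : af a (b - a) (c - a) (0, 0) = a := by unfold af; simp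
      rw [this]; exact ha
    · show af a (b - a) (c - a) (1, 0) ∈ K
      have : af a (b - a) (c - a) (1, 0) = b := by unfold af; simp
      rw [this]; exact hb
    · show af a (b - a) (c - a) (0, 1) ∈ K
      have : af a (b - a) (c - a) (0, 1) = c := by unfold af; simp
      rw [this]; exact hc
  · intro z hz
    obtain ⟨D, hDD⟩ : ∃ D, D = cr (b - a) (c - a) := ⟨_, rfl⟩
    have hk : af a (b - a) (c - a) z ∈ K := hz
    have e0 : af a (b - a) (c - a) z - a = z.1 • (b - a) + z.2 • (c - a) := by
      unfold af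
      module
    have e1 : cr (b - a) (z.1 • (b - a) + z.2 • (c - a)) = z.2 * D := by
      rw [hDD]
      unfold cr
      simp only [Prod.fst_add, Prod.snd_add, Prod.smul_fst, Prod.smul_snd, smul_eq_mul]
      ring
    have e2 : cr (z.1 • (b - a) + z.2 • (c - a)) (b - a) = -(z.2 * D) := by
      rw [hDD]
      unfold cr
      simp only [Prod.fst_add, Prod.snd_add, Prod.smul_fst, Prod.smul_snd, smul_eq_mul]
      ring
    have e3 : cr (z.1 • (b - a) + z.2 • (c - a)) (c - a) = z.1 * D := by
      rw [hDD]
      unfold cr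
      simp only [Prod.fst_add, Prod.snd_add, Prod.smul_fst, Prod.smul_snd, smul_eq_mul]
      ring
    have e4 : cr (c - a) (z.1 • (b - a) + z.2 • (c - a)) = -(z.1 * D) := by
      rw [hDD]
      unfold cr
      simp only [Prod.fst_add, Prod.snd_add, Prod.smul_fst, Prod.smul_snd, smul_eq_mul]
      ring
    have h1 := hle a ha b hb _ hk
    have h2 := hle a ha _ hk b hb
    have h3 := hle a ha _ hk c hc
    have h4 := hle a ha c hc _ hk
    rw [e0, ← hDD] at h1 h2 h3 h4
    rw [e1] at h1
    rw [e2] at h2
    rw [e3] at h3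
    rw [e4] at h4
    rw [← hDD] at hD
    have k1 : z.2 ≤ 1 := by
      by_contra h
      push Not at h
      nlinarith
    have k2 : -1 ≤ z.2 := by
      by_contra h
      push Not at h
      nlinarith
    have k3 : z.1 ≤ 1 := by
      by_contra h
      push Not at h
      nlinarith
    have k4 : -1 ≤ z.1 := by
      by_contra h
      push Not at h
      nlinarith
    exact ⟨⟨k4, k2⟩, ⟨k3, k1⟩⟩

end Pool.Agent.N655.CQ
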